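import Mathlib
import Pool.Agent.helper38.LSys3

set_option autoImplicit false

namespace Pool.Agent.Results.MP_141f81_co.LimitExponent

/-- For all `k` and nonempty `L ⊆ {0, …, k - 1}` there is a real `α ≥ 1` such that the maximum
size `m(n,k,L)` of a family of `k`-subsets of an `n`-set with pairwise intersection sizes in `L`
is `O(n^α)`, dominates `n^β` for every `β < α`, and has `log m(n,k,L) / log n → α`. -/
theorem result :
    ∀ (k : ℕ) (L : Finset ℕ), L.Nonempty → L ⊆ Finset.range k →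
      ∃ α : ℝ, 1 ≤ α ∧
        Asymptotics.IsBigO Filter.atTop
          (fun n : ℕ => ((sSup {s : ℕ | ∃ F : Finset (Finset (Fin n)), F.card = s ∧
              (∀ A ∈ F, A.card = k) ∧
              ∀ A ∈ F, ∀ B ∈ F, A ≠ B → (A ∩ B).card ∈ L} : ℕ) : ℝ))
          (fun n : ℕ => (n : ℝ) ^ α) ∧
        (∀ β : ℝ, β < α → Asymptotics.IsBigO Filter.atTop
          (fun n : ℕ => (n : ℝ) ^ β)
          (fun n : ℕ => ((sSup {s : ℕ | ∃ F : Finset (Finset (Fin n)), F.card = s ∧
              (∀ A ∈ F, A.card = k) ∧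
              ∀ A ∈ F, ∀ B ∈ F, A ≠ B → (A ∩ B).card ∈ L} : ℕ) : ℝ))) ∧
        Filter.Tendsto
          (fun n : ℕ => Real.log ((sSup {s : ℕ | ∃ F : Finset (Finset (Fin n)), F.card = s ∧
              (∀ A ∈ F, A.card = k) ∧
              ∀ A ∈ F, ∀ B ∈ F, A ≠ B → (A ∩ B).card ∈ L} : ℕ) : ℝ) / Real.log (n : ℝ))
          Filter.atTop (nhds α) :=
  fun k L hL hLk => Pool.Agent.helper38.LSys.limit_exponent k L hL hLk

end Pool.Agent.Results.MP_141f81_co.LimitExponent
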